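import Pool.Agent.Lib.MP_77fd7e_co.Lower

namespace Pool.Agent.Results.MP_77fd7e_co.Classification

open Pool.Agent.Lib.MP_77fd7e_co SimpleGraph

theorem result : ∀ (V : Type) [Fintype V] [DecidableEq V] (G : SimpleGraph V), G.Connected →
    (∀ v, ∃ w, G.Adj v w) →
    (4 * gammaTg G = 3 * Fintype.card V ↔
      Nonempty (G ≃g pathGraph 4) ∨ Nonempty (G ≃g pathGraph 8) ∨ Nonempty (G ≃g tree12) ∨
        Nonempty (G ≃g sun24)) := by
  intro V _ _ G hc hn
  classical
  have k : ∀ {m : ℕ} (H : SimpleGraph (Fin m)), 4 * gammaTg H = 3 * m → Nonempty (G ≃g H) →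
      4 * gammaTg G = 3 * Fintype.card V := fun H h ⟨f⟩ => by
    rw [← gammaTg_iso f, Fintype.card_congr f.toEquiv, Fintype.card_fin, h]
  refine ⟨fun h => Ctx.classify ⟨hc, hn, by rwa [← gammaTg_eq]⟩, ?_⟩
  rintro (h | h | h | h)
  exacts [k _ val_P4 h, k _ val_P8 h, k _ val_T h, k _ val_S h]

end Pool.Agent.Results.MP_77fd7e_co.Classification
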